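import Mathlib

/-!
Envy cycle elimination starting from an almost balanced partition.
-/

namespace Pool.Agent.P.MP_0aed39_co

open Finset

variable {α : Type*} [Fintype α] [DecidableEq α] {n : ℕ}

lemma exists_cycle {β : Type*} [Fintype β] [DecidableEq β] [Nonempty β] (F : β → β) :
    ∃ (P : Finset β) (π : Equiv.Perm β), P.Nonempty ∧ (∀ a ∈ P, π a = F a) ∧
      ∀ a ∉ P, π a = a := by
  obtain ⟨P, hP, hmin⟩ := exists_min_image
    ((univ : Finset (Finset β)).filter fun P => P.Nonempty ∧ P.image F ⊆ P) card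
    ⟨univ, by simp⟩
  obtain ⟨h1, h2⟩ := (mem_filter.1 hP).2
  have h3 := hmin (P.image F) (mem_filter.2 ⟨mem_univ _, h1.image F, image_subset_image h2⟩)
  have h4 : Set.InjOn F P := card_image_iff.1 (le_antisymm card_image_le h3)
  let f : β → β := fun a => if a ∈ P then F a else a
  have hf : Function.Injective f := by
    intro a b h
    by_cases ha : a ∈ P <;> by_cases hb : b ∈ P <;> simp only [f, ha, hb, if_true, if_false] at h
    · exact h4 ha hb h
    · exact absurd (h ▸ h2 (mem_image_of_mem F ha)) hb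
    · exact absurd (h ▸ h2 (mem_image_of_mem F hb)) ha
    · exact h
  exact ⟨P, Equiv.ofBijective f hf.bijective_of_finite, h1, fun a ha => by simp [f, ha],
    fun a ha => by simp [f, ha]⟩

lemma unenvied (hn : 0 < n) (V : Fin n → Fin n → ℝ) (σ : Equiv.Perm (Fin n)) :
    ∃ σ' : Equiv.Perm (Fin n), (∀ i, V i (σ i) ≤ V i (σ' i)) ∧ ∃ c, ∀ i, V i c ≤ V i (σ' i) := by
  classical
  have : Nonempty (Fin n) := ⟨⟨0, hn⟩⟩
  obtain ⟨τ, hτ, hmax⟩ := exists_max_image
    ((univ : Finset (Equiv.Perm (Fin n))).filter fun τ => ∀ i, V i (σ i) ≤ V i (τ i))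
    (fun τ => ∑ i, V i (τ i)) ⟨σ, by simp⟩
  have h0 := (mem_filter.1 hτ).2
  refine ⟨τ, h0, by_contra fun h => ?_⟩
  push Not at h
  choose f hf using h
  obtain ⟨P, π, ⟨a₀, ha₀⟩, h1, h2⟩ := exists_cycle fun a => f (τ a)
  have h3 : ∀ a, V (π a) (τ (π a)) ≤ V (π a) (τ a) := fun a => by
    by_cases ha : a ∈ P
    · rw [h1 a ha]; exact (hf _).le
    · rw [h2 a ha]
  have h4 := hmax (π.symm.trans τ) (mem_filter.2 ⟨mem_univ _, fun i => by
    obtain ⟨a, rfl⟩ := π.surjective i
    simpa using (h0 _).trans (h3 a)⟩)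
  rw [← Equiv.sum_comp π, ← Equiv.sum_comp π (fun i => V i (τ i))] at h4
  simp only [Equiv.trans_apply, Equiv.symm_apply_apply] at h4
  refine absurd h4 (not_le.2 (sum_lt_sum (fun a _ => h3 a) ⟨a₀, mem_univ _, ?_⟩))
  rw [h1 a₀ ha₀]; exact hf _

/-- The value of the part of colour class `c` inside `U`. -/
def val (v : α → ℝ) (χ : α → Fin n) (U : Finset α) (c : Fin n) : ℝ :=
  ∑ g ∈ U, if χ g = c then v g else 0

omit [Fintype α] in
lemma distribute (hn : 0 < n) (v : Fin n → α → ℝ) (hv : ∀ i g, 0 ≤ v i g) (χ₀ : α → Fin n)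
    (U T : Finset α) (hT : Disjoint U T) : ∃ (χ : α → Fin n) (σ : Equiv.Perm (Fin n)),
      (∀ g ∉ T, χ g = χ₀ g) ∧ ∀ c, (∀ g ∈ T, χ g ≠ c) ∨ ∃ g ∈ T, χ g = c ∧
        ∀ i, val (v i) χ (U ∪ T) c - v i g ≤ val (v i) χ (U ∪ T) (σ i) := by
  induction T using Finset.induction_on with
  | empty => exact ⟨χ₀, 1, fun _ _ => rfl, fun c => Or.inl (by simp)⟩
  | insert a T ha ih =>
    obtain ⟨χ, σ, h1, h2⟩ := ih (hT.mono_right (subset_insert _ _))
    obtain ⟨σ', h3, c₀, h4⟩ := unenvied hn (fun i c => val (v i) χ (U ∪ T) c) σ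
    have haU : a ∉ U ∪ T := by
      rw [mem_union, not_or]
      exact ⟨fun h => disjoint_left.1 hT h (mem_insert_self _ _), ha⟩
    have key : ∀ i c, val (v i) (Function.update χ a c₀) (U ∪ insert a T) c =
        (if c₀ = c then v i a else 0) + val (v i) χ (U ∪ T) c := fun i c => by
      rw [union_insert, val, sum_insert haU, Function.update_self]
      congr 1
      exact sum_congr rfl fun g hg => by
        rw [Function.update_of_ne (fun h : g = a => haU (h ▸ hg))]
    have mono : ∀ i c, val (v i) χ (U ∪ T) c ≤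
        val (v i) (Function.update χ a c₀) (U ∪ insert a T) c := fun i c => by
      rw [key]
      have := hv i a
      split_ifs <;> linarith
    refine ⟨Function.update χ a c₀, σ', fun g hg => ?_, fun c => ?_⟩
    · rw [mem_insert, not_or] at hg
      rw [Function.update_of_ne hg.1, h1 g hg.2]
    · by_cases hc : c₀ = c
      · refine Or.inr ⟨a, mem_insert_self _ _, by simpa using hc, fun i => ?_⟩
        refine le_trans ?_ (mono i _)
        rw [key, if_pos hc, ← hc]
        linarith [h4 i]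
      · rcases h2 c with h5 | ⟨g, h5, h6, h7⟩
        · refine Or.inl fun g hg => ?_
          rcases mem_insert.1 hg with rfl | hg
          · simpa using hc
          · rw [Function.update_of_ne (fun h : g = a => ha (h ▸ hg))]; exact h5 g hg
        · refine Or.inr ⟨g, mem_insert_of_mem h5, ?_, fun i => ?_⟩
          · rw [Function.update_of_ne (fun h : g = a => ha (h ▸ h5))]; exact h6
          · refine le_trans ?_ (mono i _)
            rw [key, if_neg hc, zero_add]
            exact (h7 i).trans (h3 i)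

/-- The most valuable goods. -/
lemma exists_top (v : α → ℝ) (hv : ∀ g, 0 ≤ v g) (l : ℕ) : ∃ (L : Finset α) (u : ℝ),
    L.card ≤ l ∧ 0 ≤ u ∧ (∀ g ∉ L, v g ≤ u) ∧ (u = 0 ∨ (l ≤ L.card ∧ ∀ g ∈ L, u ≤ v g)) := by
  induction l with
  | zero =>
    exact ⟨∅, ∑ g, v g, by simp, sum_nonneg fun g _ => hv g,
      fun g _ => single_le_sum (fun g _ => hv g) (mem_univ g), Or.inr (by simp)⟩
  | succ l ih =>
    obtain ⟨L, u, h1, h2, h3, h4⟩ := ih
    rcases h4 with h4 | ⟨h4, h5⟩
    · exact ⟨L, u, by omega, h2, h3, Or.inl h4⟩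
    rcases (Lᶜ).eq_empty_or_nonempty with h | h
    · refine ⟨L, 0, by omega, le_rfl, fun g hg => ?_, Or.inl rfl⟩
      have : g ∈ Lᶜ := mem_compl.2 hg
      simp [h] at this
    · obtain ⟨g₀, h6, h7⟩ := exists_max_image Lᶜ v h
      have h8 := mem_compl.1 h6
      refine ⟨insert g₀ L, v g₀, by rw [card_insert_of_notMem h8]; omega, hv _,
        fun g hg => h7 g (mem_compl.2 fun h => hg (mem_insert_of_mem h)),
        Or.inr ⟨by rw [card_insert_of_notMem h8]; omega, fun g hg => ?_⟩⟩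
      rcases mem_insert.1 hg with rfl | hg
      · exact le_rfl
      · exact (h3 _ h8).trans (h5 g hg)

/-- The reserved goods repair a bounded imbalance. -/
lemma repair (hn : 0 < n) (v : Fin n → α → ℝ) (hv : ∀ i g, 0 ≤ v i g) (χ₀ : α → Fin n)
    (S : Finset α) (D : ℕ) (u : Fin n → ℝ)
    (hb : ∀ i c c', val (v i) χ₀ Sᶜ c ≤ val (v i) χ₀ Sᶜ c' + D * u i)
    (hu : ∀ i, u i = 0 ∨ ∃ L ⊆ S, n * D + 1 ≤ L.card ∧ ∀ g ∈ L, u i ≤ v i g)
    (hu0 : ∀ i, 0 ≤ u i) :
    ∃ (χ : α → Fin n) (σ : Equiv.Perm (Fin n)), (∀ g ∉ S, χ g = χ₀ g) ∧ ∀ i c,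
      val (v i) χ univ c ≤ val (v i) χ univ (σ i) ∨
        ∃ g, χ g = c ∧ val (v i) χ univ c - v i g ≤ val (v i) χ univ (σ i) := by
  obtain ⟨χ, σ, h1, h2⟩ := distribute hn v hv χ₀ Sᶜ S disjoint_compl_left
  have e : Sᶜ ∪ S = univ := by rw [union_comm, union_compl]
  rw [e] at h2
  refine ⟨χ, σ, h1, fun i c => ?_⟩
  rcases h2 c with h3 | ⟨g, -, h3, h4⟩
  swap
  · exact Or.inr ⟨g, h3, h4 i⟩
  left
  by_contra hc
  push Not at hc
  have split : ∀ c, val (v i) χ univ c = val (v i) χ S c + val (v i) χ₀ Sᶜ c := fun c => by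
    rw [val, ← sum_add_sum_compl S]
    congr 1
    exact sum_congr rfl fun g hg => by rw [h1 g (mem_compl.1 hg)]
  have z : val (v i) χ S c = 0 := sum_eq_zero fun g hg => if_neg (h3 g hg)
  have nn : ∀ c, 0 ≤ val (v i) χ S c := fun c => sum_nonneg fun g _ => by
    split_ifs
    exacts [hv i g, le_rfl]
  rcases hu i with h0 | ⟨L, hL, hl, h5⟩
  · have := hb i c (σ i)
    rw [split, split, z] at hc
    rw [h0] at this
    linarith [nn (σ i)]
  obtain ⟨c', -, h6⟩ := exists_lt_card_fiber_of_mul_lt_card_of_maps_to (s := L)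
    (t := (univ : Finset (Fin n))) (f := χ) (fun _ _ => mem_univ _) (n := D) (by simpa using hl)
  rcases h2 c' with h7 | ⟨g, hg, h7, h8⟩
  · obtain ⟨g, hg⟩ := card_pos.1 (lt_of_le_of_lt (Nat.zero_le _) h6)
    exact h7 g (hL (mem_filter.1 hg).1) (mem_filter.1 hg).2
  have h9 : (D : ℝ) * u i ≤ val (v i) χ S c' - v i g := by
    have h10 : val (v i) χ S c' - v i g = ∑ x ∈ S.erase g, if χ x = c' then v i x else 0 := by
      rw [val, ← add_sum_erase S _ hg, if_pos h7]; ring
    have h11 : D ≤ ((L.filter fun x => χ x = c').erase g).card := by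
      have := pred_card_le_card_erase (s := L.filter fun x => χ x = c') (a := g)
      omega
    rw [h10]
    calc (D : ℝ) * u i ≤ ((L.filter fun x => χ x = c').erase g).card * u i := by
          have := hu0 i
          gcongr
      _ ≤ ∑ x ∈ (L.filter fun x => χ x = c').erase g, if χ x = c' then v i x else 0 := by
          rw [← nsmul_eq_mul]
          refine card_nsmul_le_sum _ _ _ fun x hx => ?_
          obtain ⟨h12, h13⟩ := mem_filter.1 (mem_of_mem_erase hx)
          rw [if_pos h13]; exact h5 x h12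
      _ ≤ _ := by
          refine sum_le_sum_of_subset_of_nonneg (erase_subset_erase _ ((filter_subset _ _).trans hL))
            fun x _ _ => ?_
          split_ifs
          exacts [hv i x, le_rfl]
  have h12 := h8 i
  have h13 := hb i c c'
  rw [split c'] at h12
  rw [split c, z] at hc
  linarith

end Pool.Agent.P.MP_0aed39_co
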