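import Pool.Agent.P.MP_0aed39_co.Main

/-!
Many goods that are pairwise not twins give directions in which the multilinear count of
monochromatic edges drops by a definite amount.
-/

namespace Pool.Agent.P.MP_0aed39_co

open Finset

/-- Ramsey's theorem for several colours. -/
lemma ramsey_multi (k r : ℕ) : ∃ N : ℕ, ∀ (ι : Type) [DecidableEq ι] (f : ι → ι → ℕ),
    (∀ x y, f x y = f y x) → ∀ s : Finset ι, (∀ x ∈ s, ∀ y ∈ s, x ≠ y → f x y < r) →
      N ≤ s.card → ∃ t ⊆ s, t.card = k ∧ ∃ c, ∀ x ∈ t, ∀ y ∈ t, x ≠ y → f x y = c := by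
  induction r with
  | zero =>
    refine ⟨2, fun ι _ f _ s h hs => ?_⟩
    obtain ⟨x, hx, y, hy, hxy⟩ := one_lt_card.1 (by omega : 1 < s.card)
    exact absurd (h x hx y hy hxy) (Nat.not_lt_zero _)
  | succ r ih =>
    obtain ⟨N, hN⟩ := ih
    refine ⟨2 ^ (k + N), fun ι _ f hf s h hs => ?_⟩
    let H : SimpleGraph ι :=
      { Adj := fun x y => x ≠ y ∧ f x y = r
        symm := ⟨fun x y hh => ⟨hh.1.symm, (hf y x).trans hh.2⟩⟩
        loopless := ⟨fun x hh => hh.1 rfl⟩ }
    rcases ramsey H _ k N s rfl hs with ⟨t, ht, h2, h3⟩ | ⟨t, ht, h2, h3⟩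
    · exact ⟨t, ht, h2, r, fun x hx y hy hxy => (h3 x hx y hy hxy).2⟩
    · obtain ⟨u, hu, h4⟩ := hN ι f hf t (fun x hx y hy hxy => by
        have h5 := h x (ht hx) y (ht hy) hxy
        have h6 : f x y ≠ r := fun h7 => h3 x hx y hy ⟨hxy, h7⟩
        omega) h2.ge
      exact ⟨u, hu.trans ht, h4⟩

/-- Two goods that are not twins: a third good is adjacent to exactly one of them. -/
def Apart {α : Type*} (G : SimpleGraph α) (x y : α) : Prop :=
  ∃ z, z ≠ x ∧ z ≠ y ∧ ¬ (G.Adj z x ↔ G.Adj z y)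

/-- A family of disjoint pairs whose second entries separate the first entries. -/
structure Fam {α : Type*} (G : SimpleGraph α) (F T : Finset α) (P : Finset (α × α)) : Prop where
  mem : ∀ p ∈ P, p.1 ∈ T
  out1 : ∀ p ∈ P, p.1 ∉ F
  out2 : ∀ p ∈ P, p.2 ∉ F
  ne12 : ∀ p ∈ P, ∀ q ∈ P, p.1 ≠ q.2
  eq11 : ∀ p ∈ P, ∀ q ∈ P, p.1 = q.1 → p = q
  eq22 : ∀ p ∈ P, ∀ q ∈ P, p.2 = q.2 → p = q
  sep : ∀ p ∈ P, ∀ q ∈ P, p ≠ q →
    ¬ (G.Adj p.2 q.1 ↔ G.Adj p.2 p.1) ∨ ¬ (G.Adj q.2 p.1 ↔ G.Adj q.2 q.1)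

lemma exists_fam (k : ℕ) : ∀ s : ℕ, ∃ N : ℕ, ∀ (α : Type) [DecidableEq α] (G : SimpleGraph α)
    (F T : Finset α), F.card ≤ s → (∀ x ∈ T, ∀ y ∈ T, x ≠ y → Apart G x y) → N ≤ T.card →
      ∃ P, Fam G F T P ∧ P.card = k := by
  classical
  induction k with
  | zero =>
    intro s
    exact ⟨0, fun α _ G F T _ _ _ => ⟨∅, ⟨by simp, by simp, by simp, by simp, by simp, by simp,
      by simp⟩, rfl⟩⟩
  | succ k ih =>
    intro s
    obtain ⟨N, hN⟩ := ih (s + 2)
    refine ⟨s + 2 ^ s * (2 * N + 1) + 1, fun α _ G F T hF hT hc => ?_⟩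
    have h1 : F.powerset.card * (2 * N + 1) < (T \ F).card := by
      have h2 := le_card_sdiff F T
      have h3 : 2 ^ F.card ≤ 2 ^ s := Nat.pow_le_pow_right (by norm_num) hF
      have h4 := Nat.mul_le_mul_right (2 * N + 1) h3
      rw [card_powerset]
      omega
    obtain ⟨φ, -, h2⟩ := exists_lt_card_fiber_of_mul_lt_card_of_maps_to
      (f := fun x => F.filter fun z => G.Adj z x)
      (fun x _ => mem_powerset.2 (filter_subset _ _)) h1
    set T' := (T \ F).filter fun x => (F.filter fun z => G.Adj z x) = φ with hT'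
    have hsub : ∀ x ∈ T', x ∈ T ∧ x ∉ F := fun x hx => mem_sdiff.1 (mem_filter.1 hx).1
    obtain ⟨x, hx, y, hy, hxy⟩ := one_lt_card.1 (by omega : 1 < T'.card)
    obtain ⟨z, hzx, hzy, hz⟩ := hT x (hsub x hx).1 y (hsub y hy).1 hxy
    have hzF : z ∉ F := fun h => hz (by
      have h3 := (mem_filter.1 hx).2.trans (mem_filter.1 hy).2.symm
      have h4 : z ∈ (F.filter fun z => G.Adj z x) ↔ z ∈ (F.filter fun z => G.Adj z y) := by
        rw [h3]
      simpa [h] using h4)
    have h3 := card_filter_add_card_filter_not (s := T'.erase z) (fun u => G.Adj z u)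
    have h4 := pred_card_le_card_erase (s := T') (a := z)
    obtain ⟨a, ha, T'', h5, h6, h7⟩ : ∃ a ∈ T'.erase z, ∃ T'' ⊆ T'.erase z, N ≤ T''.card ∧
        ∀ u ∈ T'', ¬ (G.Adj z u ↔ G.Adj z a) := by
      have hx' : x ∈ T'.erase z := mem_erase.2 ⟨hzx.symm, hx⟩
      have hy' : y ∈ T'.erase z := mem_erase.2 ⟨hzy.symm, hy⟩
      by_cases hb : N ≤ ((T'.erase z).filter fun u => G.Adj z u).card
      · by_cases h8 : G.Adj z x
        · exact ⟨y, hy', _, filter_subset _ _, hb, fun u hu => by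
            have := (mem_filter.1 hu).2; tauto⟩
        · exact ⟨x, hx', _, filter_subset _ _, hb, fun u hu => by
            have := (mem_filter.1 hu).2; tauto⟩
      · have hb' : N ≤ ((T'.erase z).filter fun u => ¬ G.Adj z u).card := by omega
        by_cases h8 : G.Adj z x
        · exact ⟨x, hx', _, filter_subset _ _, hb', fun u hu => by
            have := (mem_filter.1 hu).2; tauto⟩
        · exact ⟨y, hy', _, filter_subset _ _, hb', fun u hu => by
            have := (mem_filter.1 hu).2; tauto⟩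
    have hT'' : ∀ u ∈ T'', u ∈ T := fun u hu => (hsub u (mem_of_mem_erase (h5 hu))).1
    obtain ⟨P, hP, hk⟩ := hN α G (insert a (insert z F)) T''
      ((card_insert_le _ _).trans (by have := card_insert_le z F; omega))
      (fun u hu v hv => hT u (hT'' u hu) v (hT'' v hv)) h6
    have o1 : ∀ p ∈ P, p.1 ≠ a ∧ p.1 ≠ z ∧ p.1 ∉ F := fun p hp => by
      simpa [not_or] using hP.out1 p hp
    have o2 : ∀ p ∈ P, p.2 ≠ a ∧ p.2 ≠ z ∧ p.2 ∉ F := fun p hp => by
      simpa [not_or] using hP.out2 p hp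
    have hn : (a, z) ∉ P := fun h => (o1 _ h).1 rfl
    have haT := hsub a (mem_of_mem_erase ha)
    refine ⟨insert (a, z) P, ⟨?_, ?_, ?_, ?_, ?_, ?_, ?_⟩, by rw [card_insert_of_notMem hn, hk]⟩
    · intro p hp
      rcases mem_insert.1 hp with rfl | hp
      exacts [haT.1, hT'' _ (hP.mem p hp)]
    · intro p hp
      rcases mem_insert.1 hp with rfl | hp
      exacts [haT.2, (o1 p hp).2.2]
    · intro p hp
      rcases mem_insert.1 hp with rfl | hp
      exacts [hzF, (o2 p hp).2.2]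
    · intro p hp q hq
      rcases mem_insert.1 hp with rfl | hp <;> rcases mem_insert.1 hq with rfl | hq
      exacts [(mem_erase.1 ha).1, (o2 q hq).1.symm, (o1 p hp).2.1, hP.ne12 p hp q hq]
    · intro p hp q hq h
      rcases mem_insert.1 hp with rfl | hp <;> rcases mem_insert.1 hq with rfl | hq
      exacts [rfl, absurd h.symm (o1 q hq).1, absurd h (o1 p hp).1, hP.eq11 p hp q hq h]
    · intro p hp q hq h
      rcases mem_insert.1 hp with rfl | hp <;> rcases mem_insert.1 hq with rfl | hq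
      exacts [rfl, absurd h.symm (o2 q hq).2.1, absurd h (o2 p hp).2.1, hP.eq22 p hp q hq h]
    · intro p hp q hq h
      rcases mem_insert.1 hp with rfl | hp <;> rcases mem_insert.1 hq with rfl | hq
      exacts [absurd rfl h, Or.inl (h7 _ (hP.mem q hq)), Or.inr (h7 _ (hP.mem p hp)),
        hP.sep p hp q hq h]

/-- A direction on a homogeneous family of pairs. -/
lemma dir_of_fam {α : Type} [Fintype α] [DecidableEq α] (G : SimpleGraph α) [DecidableRel G.Adj]
    {J : Type} [Fintype J] (w : J → α → ℝ) {F T : Finset α} {P t : Finset (α × α)}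
    (hP : Fam G F T P) (ht : t ⊆ P) (hc : Fintype.card J + 1 < t.card) (σ e c : ℝ)
    (hσ : |σ| = 1) (h1 : 1 ≤ c)
    (hM : ∀ p ∈ t, ∀ q ∈ t, (if G.Adj p.1 q.1 then (1 : ℝ) else 0) +
      σ * (if G.Adj p.1 q.2 then 1 else 0) + σ * (if G.Adj p.2 q.1 then 1 else 0) +
      (if G.Adj p.2 q.2 then 1 else 0) = (if p = q then 0 else c) - e) :
    ∃ (δ : α → ℝ) (U : Finset α), U.card ≤ 2 * t.card ∧ (∀ g, δ g ≠ 0 → g ∈ U ∧ g ∉ F) ∧
      (∀ g, |δ g| ≤ 1) ∧ (∀ j, ∑ g, w j g * δ g = 0) ∧
      (∑ g, ∑ h, if G.Adj g h then δ g * δ h else 0) ≤ -1 := by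
  classical
  obtain ⟨l, ⟨p₁, hp₁⟩, l2, l3, l4⟩ := exists_dir (fun j (p : α × α) => w j p.1 + σ * w j p.2) t hc
  obtain ⟨p₀, -, hp₀⟩ := exists_max_image univ (fun p => |l p|) ⟨p₁, mem_univ _⟩
  have hpos : 0 < |l p₀| := lt_of_lt_of_le (abs_pos.2 hp₁) (hp₀ p₁ (mem_univ _))
  set m : α × α → ℝ := fun p => l p / |l p₀| with hm
  have m1 : ∀ p, |m p| ≤ 1 := fun p => by
    rw [hm, abs_div, abs_abs, div_le_one hpos]; exact hp₀ p (mem_univ _)
  have m0 : m p₀ * m p₀ = 1 := by
    simp only [hm]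
    rw [div_mul_div_comm, abs_mul_abs_self, div_self]
    exact mul_self_ne_zero.2 (abs_pos.1 hpos)
  have m2 : ∀ p, m p ≠ 0 → p ∈ t := fun p hp => l2 p fun h => hp (by simp [hm, h])
  have m3 : ∑ p, m p = 0 := by simp only [hm]; rw [← sum_div, l3, zero_div]
  have hσ2 : σ * σ = 1 := by rw [← abs_mul_abs_self, hσ, one_mul]
  let δ : α → ℝ := fun g => ∑ p, m p * ((if p.1 = g then 1 else 0) + σ * if p.2 = g then 1 else 0)
  have key : ∀ u : α → ℝ, ∑ g, u g * δ g = ∑ p, m p * (u p.1 + σ * u p.2) := fun u => by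
    simp only [δ, mul_sum]
    rw [sum_comm]
    refine sum_congr rfl fun p _ => ?_
    have : ∀ g, u g * (m p * ((if p.1 = g then 1 else 0) + σ * if p.2 = g then 1 else 0)) =
        (if p.1 = g then m p * u g else 0) + if p.2 = g then m p * (σ * u g) else 0 := fun g => by
      split_ifs <;> ring
    simp only [this, sum_add_distrib, sum_ite_eq, mem_univ, if_true]
    ring
  have supp : ∀ g, δ g ≠ 0 → ∃ p ∈ t, p.1 = g ∨ p.2 = g := fun g hg => by
    obtain ⟨p, -, hp⟩ := exists_ne_zero_of_sum_ne_zero hg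
    refine ⟨p, m2 p (left_ne_zero_of_mul hp), by_contra fun h => ?_⟩
    push Not at h
    simp [h.1, h.2] at hp
  refine ⟨δ, t.image Prod.fst ∪ t.image Prod.snd, ?_, fun g hg => ?_, fun g => ?_, fun j => ?_, ?_⟩
  · have := card_union_le (t.image Prod.fst) (t.image Prod.snd)
    have := card_image_le (s := t) (f := Prod.fst)
    have := card_image_le (s := t) (f := Prod.snd)
    omega
  · obtain ⟨p, hp, h⟩ := supp g hg
    rcases h with rfl | rfl
    · exact ⟨mem_union_left _ (mem_image_of_mem _ hp), hP.out1 p (ht hp)⟩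
    · exact ⟨mem_union_right _ (mem_image_of_mem _ hp), hP.out2 p (ht hp)⟩
  · by_cases hg : δ g = 0
    · simp [hg]
    obtain ⟨p, hp, h⟩ := supp g hg
    have h2 : δ g = m p * ((if p.1 = g then 1 else 0) + σ * if p.2 = g then 1 else 0) := by
      refine sum_eq_single p (fun q _ hq => ?_) (by simp)
      by_cases hq0 : m q = 0
      · simp [hq0]
      have hq' := ht (m2 q hq0)
      have hp' := ht hp
      have a1 : q.1 ≠ g := by
        rcases h with rfl | rfl
        exacts [fun h => hq (hP.eq11 q hq' p hp' h), hP.ne12 q hq' p hp']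
      have a2 : q.2 ≠ g := by
        rcases h with rfl | rfl
        exacts [(hP.ne12 p hp' q hq').symm, fun h => hq (hP.eq22 q hq' p hp' h)]
      simp [a1, a2]
    have h3 := hP.ne12 p (ht hp) p (ht hp)
    rw [h2]
    rcases h with rfl | rfl
    · simpa [h3.symm] using m1 p
    · simpa [h3, abs_mul, hσ] using m1 p
  · rw [key]
    have := l4 j
    simp only [hm]
    calc _ = (∑ p, (w j p.1 + σ * w j p.2) * l p) / |l p₀| := by
          rw [sum_div]; exact sum_congr rfl fun p _ => by ring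
      _ = 0 := by rw [this, zero_div]
  · have e1 : (∑ g, ∑ h, if G.Adj g h then δ g * δ h else 0) =
        ∑ g, (∑ h, (if G.Adj g h then 1 else 0) * δ h) * δ g := by
      refine sum_congr rfl fun g _ => ?_
      rw [sum_mul]
      refine sum_congr rfl fun h _ => ?_
      split_ifs <;> ring
    have e2 : ∀ p q, m p * m q * ((if G.Adj p.1 q.1 then (1 : ℝ) else 0) +
        σ * (if G.Adj p.1 q.2 then 1 else 0) + σ * (if G.Adj p.2 q.1 then 1 else 0) +
        (if G.Adj p.2 q.2 then 1 else 0)) =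
          (c - e) * (m p * m q) - if p = q then c * (m p * m q) else 0 := fun p q => by
      by_cases hp : m p = 0
      · simp [hp]
      by_cases hq : m q = 0
      · simp [hq]
      rw [hM p (m2 p hp) q (m2 q hq)]
      split_ifs <;> ring
    have e3 : (∑ g, ∑ h, if G.Adj g h then δ g * δ h else 0) =
        ∑ p, ∑ q, ((c - e) * (m p * m q) - if p = q then c * (m p * m q) else 0) := by
      rw [e1, key]
      refine sum_congr rfl fun p _ => ?_
      rw [key, key, mul_sum, ← sum_add_distrib, mul_sum]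
      refine sum_congr rfl fun q _ => ?_
      rw [← e2]
      linear_combination (m p * m q * (if G.Adj p.2 q.2 then 1 else 0)) * hσ2
    rw [e3]
    simp only [sum_sub_distrib, sum_ite_eq, mem_univ, if_true, ← mul_sum, m3, mul_zero]
    have e4 : 1 ≤ ∑ p, m p * m p :=
      m0.ge.trans (single_le_sum (f := fun p => m p * m p) (fun p _ => mul_self_nonneg _)
        (mem_univ p₀))
    simp only [sum_const_zero]
    nlinarith

lemma exists_gain (k s : ℕ) : ∃ N : ℕ, ∀ (α : Type) [Fintype α] [DecidableEq α]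
    (G : SimpleGraph α) [DecidableRel G.Adj] (J : Type) [Fintype J] (w : J → α → ℝ)
    (F T : Finset α), Fintype.card J ≤ k → F.card ≤ s →
    (∀ x ∈ T, ∀ y ∈ T, x ≠ y → Apart G x y) → N ≤ T.card →
    ∃ (δ : α → ℝ) (U : Finset α), U.card ≤ 2 * (k + 2) ∧ (∀ g, δ g ≠ 0 → g ∈ U ∧ g ∉ F) ∧
      (∀ g, |δ g| ≤ 1) ∧ (∀ j, ∑ g, w j g * δ g = 0) ∧
      (∑ g, ∑ h, if G.Adj g h then δ g * δ h else 0) ≤ -1 := by
  obtain ⟨N₁, h₁⟩ := ramsey_multi (k + 2) 5
  obtain ⟨N, hN⟩ := exists_fam (2 * N₁) s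
  refine ⟨N, fun α _ _ G _ J _ w F T hJ hF hT hc => ?_⟩
  obtain ⟨P, hP, hk⟩ := hN α G F T hF hT hc
  have h2 := card_filter_add_card_filter_not (s := P) (fun p => G.Adj p.2 p.1)
  by_cases hb : N₁ ≤ (P.filter fun p => G.Adj p.2 p.1).card
  · obtain ⟨t, ht, h3, c, h4⟩ := h₁ (α × α) (fun p q => (if G.Adj p.1 q.1 then 1 else 0) +
        (if G.Adj p.1 q.2 then 0 else 1) + (if G.Adj p.2 q.1 then 0 else 1) +
        (if G.Adj p.2 q.2 then 1 else 0))
      (fun p q => by
        simp only [G.adj_comm q.1 p.1, G.adj_comm q.1 p.2, G.adj_comm q.2 p.1, G.adj_comm q.2 p.2]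
        ring) _ (fun p _ q _ _ => by split_ifs <;> omega) hb
    have h5 : ∀ p ∈ t, p ∈ P ∧ G.Adj p.2 p.1 := fun p hp => mem_filter.1 (ht hp)
    have h6 : 1 ≤ c := by
      obtain ⟨p, hp, q, hq, hpq⟩ := one_lt_card.1 (by omega : 1 < t.card)
      have h7 := h4 p hp q hq hpq
      have h8 := hP.sep p (h5 p hp).1 q (h5 q hq).1 hpq
      simp only [(h5 p hp).2, (h5 q hq).2, iff_true, G.adj_comm q.2 p.1] at h8
      rcases h8 with h8 | h8 <;> simp only [h8, if_false] at h7 <;> omega
    have := dir_of_fam G w hP (fun p hp => (h5 p hp).1) (by omega) (-1) 2 c (by simp)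
      (by exact_mod_cast h6) (fun p hp q hq => by
        by_cases hpq : p = q
        · subst hpq
          simp [(h5 p hp).2, (h5 p hp).2.symm]; norm_num
        · rw [if_neg hpq, ← h4 p hp q hq hpq]
          push_cast
          split_ifs <;> norm_num)
    rwa [h3] at this
  · obtain ⟨t, ht, h3, c, h4⟩ := h₁ (α × α) (fun p q => (if G.Adj p.1 q.1 then 1 else 0) +
        (if G.Adj p.1 q.2 then 1 else 0) + (if G.Adj p.2 q.1 then 1 else 0) +
        (if G.Adj p.2 q.2 then 1 else 0))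
      (fun p q => by
        simp only [G.adj_comm q.1 p.1, G.adj_comm q.1 p.2, G.adj_comm q.2 p.1, G.adj_comm q.2 p.2]
        ring) (P.filter fun p => ¬ G.Adj p.2 p.1) (fun p _ q _ _ => by split_ifs <;> omega)
        (by omega)
    have h5 : ∀ p ∈ t, p ∈ P ∧ ¬ G.Adj p.2 p.1 := fun p hp => mem_filter.1 (ht hp)
    have h6 : 1 ≤ c := by
      obtain ⟨p, hp, q, hq, hpq⟩ := one_lt_card.1 (by omega : 1 < t.card)
      have h7 := h4 p hp q hq hpq
      have h8 := hP.sep p (h5 p hp).1 q (h5 q hq).1 hpq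
      simp only [(h5 p hp).2, (h5 q hq).2, iff_false, not_not, G.adj_comm q.2 p.1] at h8
      rcases h8 with h8 | h8 <;> simp only [h8, if_true] at h7 <;> omega
    have := dir_of_fam G w hP (fun p hp => (h5 p hp).1) (by omega) 1 0 c (by simp)
      (by exact_mod_cast h6) (fun p hp q hq => by
        by_cases hpq : p = q
        · subst hpq
          simp [(h5 p hp).2, show ¬ G.Adj p.1 p.2 from fun h => (h5 p hp).2 h.symm]
        · rw [if_neg hpq, ← h4 p hp q hq hpq]
          push_cast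
          split_ifs <;> norm_num)
    rwa [h3] at this

/-- The uniform fractional colouring of the goods outside `S`. -/
noncomputable def unif {α : Type} [DecidableEq α] (n : ℕ) (S : Finset α) : α → Fin n → ℝ :=
  fun g _ => if g ∈ S then 0 else 1 / n

/-- A starting point with the same linear forms as the uniform colouring and a smaller
quadratic form. -/
lemma exists_start (n k s R : ℕ) (hn : 2 ≤ n) : ∃ N : ℕ, ∀ (α : Type) [Fintype α] [DecidableEq α]
    (G : SimpleGraph α) [DecidableRel G.Adj] (J : Type) [Fintype J] (w : J → α → ℝ)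
    (S T : Finset α), Fintype.card J ≤ k → S.card ≤ s →
    (∀ x ∈ T, ∀ y ∈ T, x ≠ y → Apart G x y) → N ≤ T.card →
    ∃ y : α → Fin n → ℝ, (∀ g c, 0 ≤ y g c) ∧ (∀ g, ∑ c, y g c = ∑ c, unif n S g c) ∧
      (∀ j c, ∑ g, w j g * y g c = ∑ g, w j g * unif n S g c) ∧
      B G y y ≤ B G (unif n S) (unif n S) - R * (2 / n ^ 2) := by
  obtain ⟨N, hN⟩ := exists_gain k (s + R * (2 * (k + 2)))
  refine ⟨N, fun α _ _ G _ J _ w S T hJ hS hT hc => ?_⟩
  have hn0 : (0 : ℝ) < n := by exact_mod_cast (by omega : 0 < n)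
  suffices H : ∀ r ≤ R, ∃ (y : α → Fin n → ℝ) (U : Finset α), U.card ≤ r * (2 * (k + 2)) ∧
      (∀ g ∉ U, y g = unif n S g) ∧ (∀ g c, 0 ≤ y g c) ∧
      (∀ g, ∑ c, y g c = ∑ c, unif n S g c) ∧
      (∀ j c, ∑ g, w j g * y g c = ∑ g, w j g * unif n S g c) ∧
      B G y y ≤ B G (unif n S) (unif n S) - r * (2 / n ^ 2) by
    obtain ⟨y, -, -, -, h⟩ := H R le_rfl
    exact ⟨y, h⟩
  intro r
  induction r with
  | zero =>
    exact fun _ => ⟨unif n S, ∅, by simp, fun _ _ => rfl,
      fun g c => by unfold unif; positivity, fun _ => rfl, fun _ _ => rfl, by simp⟩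
  | succ r ih =>
    intro hr
    obtain ⟨y, U, h1, h2, h3, h4, h5, h6⟩ := ih (by omega)
    obtain ⟨δ, U', d1, d2, d3, d4, d5⟩ := hN α G J w (S ∪ U) T hJ (by
      have := card_union_le S U
      have := Nat.mul_le_mul_right (2 * (k + 2)) (by omega : r ≤ R)
      omega) hT hc
    let c₁ : Fin n := ⟨0, by omega⟩
    let c₂ : Fin n := ⟨1, by omega⟩
    have hc12 : c₁ ≠ c₂ := by simp [c₁, c₂]
    let e : Fin n → ℝ := fun c => ((if c = c₁ then 1 else 0) - (if c = c₂ then 1 else 0)) / n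
    have e3 : ∑ c, e c = 0 := by simp [e, ← sum_div, sum_sub_distrib]
    have e4 : ∀ c, |e c| ≤ 1 / n := fun c => by
      simp only [e]
      rw [abs_div, abs_of_pos hn0]
      gcongr
      split_ifs <;> norm_num
    have e5 : ∑ c, e c * e c = 2 / n ^ 2 := by
      have : ∀ c, e c * e c =
          ((if c = c₁ then 1 else 0) + (if c = c₂ then 1 else 0)) / (n : ℝ) ^ 2 := fun c => by
        simp only [e]
        by_cases a1 : c = c₁
        · have a2 : c ≠ c₂ := a1 ▸ hc12
          simp only [if_pos a1, if_neg a2]; field_simp; ring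
        · by_cases a2 : c = c₂
          · simp only [if_neg a1, if_pos a2]; field_simp; ring
          · simp [a1, a2]
      simp only [this, ← sum_div, sum_add_distrib, sum_ite_eq', mem_univ, if_true]
      norm_num
    have e6 : B G (fun g c => δ g * e c) (fun g c => δ g * e c) ≤ -(2 / n ^ 2) := by
      have : B G (fun g c => δ g * e c) (fun g c => δ g * e c) =
          (∑ g, ∑ h, if G.Adj g h then δ g * δ h else 0) * ∑ c, e c * e c := by
        simp only [B, sum_mul]
        refine sum_congr rfl fun g _ => sum_congr rfl fun h _ => ?_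
        split_ifs
        · rw [mul_sum]; exact sum_congr rfl fun c _ => by ring
        · simp
      rw [this, e5]
      have : (0 : ℝ) < 2 / n ^ 2 := by positivity
      nlinarith
    obtain ⟨t, t1, t2⟩ : ∃ t : ℝ, |t| = 1 ∧
        t * (B G y (fun g c => δ g * e c) + B G (fun g c => δ g * e c) y) ≤ 0 := by
      rcases le_total (B G y (fun g c => δ g * e c) + B G (fun g c => δ g * e c) y) 0 with h | h
      · exact ⟨1, by simp, by linarith⟩
      · exact ⟨-1, by simp, by linarith⟩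
    refine ⟨fun g c => y g c + t * (δ g * e c), U ∪ U', ?_, fun g hg => ?_, fun g c => ?_,
      fun g => ?_, fun j c => ?_, ?_⟩
    · have := card_union_le U U'
      rw [add_mul]; omega
    · rw [mem_union, not_or] at hg
      have : δ g = 0 := by_contra fun h => hg.2 (d2 g h).1
      rw [← h2 g hg.1]
      simp [this]
    · by_cases hg : δ g = 0
      · simpa [hg] using h3 g c
      have a1 := (d2 g hg).2
      rw [mem_union, not_or] at a1
      have a2 : y g c = 1 / n := by rw [h2 g a1.2, unif, if_neg a1.1]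
      have a3 : |t * (δ g * e c)| ≤ 1 / n := by
        rw [abs_mul, abs_mul, t1, one_mul]
        calc |δ g| * |e c| ≤ 1 * (1 / n) := mul_le_mul (d3 g) (e4 c) (abs_nonneg _) zero_le_one
          _ = 1 / n := one_mul _
      have := (abs_le.1 a3).1
      simp only
      linarith
    · rw [sum_add_distrib, ← mul_sum, ← mul_sum, e3, h4]; simp
    · have : ∑ g, w j g * (t * (δ g * e c)) = t * e c * ∑ g, w j g * δ g := by
        rw [mul_sum]; exact sum_congr rfl fun g _ => by ring
      simp only [mul_add, sum_add_distrib, this, d4, mul_zero, add_zero, h5]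
    · rw [B_expand]
      have : t ^ 2 = 1 := by rw [← sq_abs, t1, one_pow]
      rw [this]
      push_cast
      linarith

end Pool.Agent.P.MP_0aed39_co
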