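import Pool.Agent.P.MP_0aed39_co.Round
import Pool.Agent.P.MP_0aed39_co.Envy

/-!
An allocation that is envy free up to one good with at most `|E| / n + C n` violations.
-/

namespace Pool.Agent.P.MP_0aed39_co

open Finset

variable {α : Type*} [Fintype α] [DecidableEq α] {n : ℕ}

lemma integral (hn : 0 < n) {y : α → Fin n → ℝ} (hy : ∀ g c, 0 ≤ y g c) (hF : Fr y = ∅)
    (S : Finset α) (hr : ∀ g, ∑ c, y g c = if g ∈ S then 0 else 1) :
    ∃ χ : α → Fin n, ∀ g c, y g c = if g ∉ S ∧ χ g = c then 1 else 0 := by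
  have : ∀ g, ∃ c₀ : Fin n, ∀ c, y g c = if g ∉ S ∧ c₀ = c then 1 else 0 := fun g => by
    have h1 := hr g
    by_cases hg : g ∈ S
    · rw [if_pos hg, sum_eq_zero_iff_of_nonneg fun c _ => hy g c] at h1
      exact ⟨⟨0, hn⟩, fun c => by simp [hg, h1 c]⟩
    rw [if_neg hg] at h1
    obtain ⟨c₀, -, h2⟩ := exists_ne_zero_of_sum_ne_zero (h1.trans_ne one_ne_zero)
    have h3 : ∀ c, c ≠ c₀ → y g c = 0 := fun c hc => by
      by_contra h4
      have : g ∈ Fr y := mem_filter.2 ⟨mem_univ _, c, c₀, hc,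
        lt_of_le_of_ne (hy _ _) (Ne.symm h4), lt_of_le_of_ne (hy _ _) (Ne.symm h2)⟩
      simp [hF] at this
    rw [sum_eq_single c₀ (fun c _ hc => h3 c hc) (by simp)] at h1
    refine ⟨c₀, fun c => ?_⟩
    by_cases hc : c₀ = c
    · rw [if_pos ⟨hg, hc⟩, ← hc, h1]
    · rw [if_neg fun h => hc h.2, h3 c (Ne.symm hc)]
  choose χ hχ using this
  exact ⟨χ, hχ⟩

variable (G : SimpleGraph α) [DecidableRel G.Adj]

/-- A balanced colouring of the goods outside `S`. -/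
lemma colouring (hn : 0 < n) (v : Fin n → α → ℝ) (hv : ∀ i g, 0 ≤ v i g) (S : Finset α)
    (u : Fin n → ℝ) (hu0 : ∀ i, 0 ≤ u i) (hu : ∀ i, ∀ g ∉ S, v i g ≤ u i) : ∃ χ : α → Fin n,
      (∀ i c c', val (v i) χ Sᶜ c ≤ val (v i) χ Sᶜ c' + (2 * Rb n n : ℕ) * u i) ∧
      (∀ s ∈ S, ∀ c, (∑ g ∈ Sᶜ, if G.Adj s g ∧ χ g = c then (1 : ℝ) else 0) ≤
        (∑ g ∈ Sᶜ, if G.Adj s g then (1 : ℝ) else 0) / n + Rb n (n + S.card)) ∧
      (∑ g ∈ Sᶜ, ∑ h ∈ Sᶜ, if G.Adj g h ∧ χ g = χ h then (1 : ℝ) else 0) ≤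
        (∑ g ∈ Sᶜ, ∑ h ∈ Sᶜ, if G.Adj g h then (1 : ℝ) else 0) / n := by
  have hn0 : (0 : ℝ) < n := by exact_mod_cast hn
  let x₀ : α → Fin n → ℝ := fun g _ => if g ∈ S then 0 else 1 / n
  have hx₀ : ∀ g c, 0 ≤ x₀ g c := fun g c => by simp only [x₀]; positivity
  have hr₀ : ∀ g, ∑ c, x₀ g c = if g ∈ S then 0 else 1 := fun g => by
    simp only [x₀]
    split_ifs
    · simp
    · simp [hn0.ne']
  let w : Fin n ⊕ S → α → ℝ := Sum.elim v fun s g => if G.Adj s g then 1 else 0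
  obtain ⟨x₁, s₁, c₁⟩ := round G w x₀ hx₀
  obtain ⟨x₂, s₂, c₂⟩ := round G v x₁ s₁.nonneg
  obtain ⟨x₃, s₃, c₃⟩ := round_all G x₂ s₂.nonneg
  rw [Fintype.card_sum, Fintype.card_fin, Fintype.card_coe] at c₁
  rw [Fintype.card_fin] at c₂
  have hr₁ : ∀ g, ∑ c, x₁ g c = if g ∈ S then 0 else 1 := fun g => (s₁.row g).trans (hr₀ g)
  have hr₂ : ∀ g, ∑ c, x₂ g c = if g ∈ S then 0 else 1 := fun g => (s₂.row g).trans (hr₁ g)
  have hr₃ : ∀ g, ∑ c, x₃ g c = if g ∈ S then 0 else 1 := fun g => (s₃.row g).trans (hr₂ g)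
  have le1 : ∀ g, (if g ∈ S then (0 : ℝ) else 1) ≤ 1 := fun g => by split_ifs <;> norm_num
  obtain ⟨χ, hχ⟩ := integral hn s₃.nonneg c₃ S hr₃
  have e3 : ∀ (f : α → ℝ) c, ∑ g, f g * x₃ g c = val f χ Sᶜ c := fun f c => by
    rw [val, ← sum_subset (subset_univ Sᶜ) fun g _ hg => by
      rw [hχ, if_neg fun h => hg (mem_compl.2 h.1), mul_zero]]
    refine sum_congr rfl fun g hg => ?_
    simp [hχ, mem_compl.1 hg]
  have e0 : ∀ (f : α → ℝ) c, ∑ g, f g * x₀ g c = (∑ g ∈ Sᶜ, f g) / n := fun f c => by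
    rw [sum_div, ← sum_subset (subset_univ Sᶜ) fun g _ hg => by
      simp only [x₀, if_pos (not_not.1 (mem_compl.not.1 hg)), mul_zero]]
    refine sum_congr rfl fun g hg => ?_
    simp only [x₀, if_neg (mem_compl.1 hg), mul_one_div]
  refine ⟨χ, fun i c c' => ?_, fun s hs c => ?_, ?_⟩
  · have key : ∀ c, |val (v i) χ Sᶜ c - (∑ g ∈ Sᶜ, v i g) / n| ≤ Rb n n * u i := fun c => by
      have h1 := close s₂.nonneg s₃.nonneg (fun g => (hr₂ g).trans_le (le1 g))
        (fun g => (hr₃ g).trans_le (le1 g)) (Fr x₂) s₃.fix (v i) (u := u i) (fun g hg => by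
          rw [abs_of_nonneg (hv i g)]
          refine hu i g fun hS => ?_
          obtain ⟨a, -, -, h2, -⟩ := (mem_filter.1 hg).2
          have h3 := hr₂ g
          rw [if_pos hS, sum_eq_zero_iff_of_nonneg fun c _ => s₂.nonneg g c] at h3
          exact h2.ne' (h3 a (mem_univ _))) c
      have h4 : ∑ g, v i g * x₁ g c = ∑ g, v i g * x₀ g c := s₁.lin (Sum.inl i) c
      rw [e3, s₂.lin, h4, e0 (v i) c] at h1
      refine h1.trans ?_
      have := hu0 i
      gcongr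
    have h1 := abs_le.1 (key c)
    have h2 := abs_le.1 (key c')
    push_cast
    linarith [h1.2, h2.1]
  · have h1 := close s₁.nonneg s₃.nonneg (fun g => (hr₁ g).trans_le (le1 g))
      (fun g => (hr₃ g).trans_le (le1 g)) (Fr x₁)
      (fun g hg => (s₃.fix g fun h => hg (s₂.sub h)).trans (s₂.fix g hg))
      (fun g => if G.Adj s g then 1 else 0) (u := 1) (fun g _ => by split_ifs <;> simp) c
    have h4 : ∑ g, (if G.Adj s g then 1 else 0) * x₁ g c =
        ∑ g, (if G.Adj s g then 1 else 0) * x₀ g c := s₁.lin (Sum.inr ⟨s, hs⟩) c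
    rw [e3, h4, e0 (fun g => if G.Adj s g then 1 else 0) c, mul_one] at h1
    have h5 : ((Fr x₁).card : ℝ) ≤ Rb n (n + S.card) := by exact_mod_cast c₁
    have h6 : (∑ g ∈ Sᶜ, if G.Adj s g ∧ χ g = c then (1 : ℝ) else 0) =
        val (fun g => if G.Adj s g then 1 else 0) χ Sᶜ c :=
      sum_congr rfl fun g _ => by by_cases h : χ g = c <;> simp [h]
    linarith [(abs_le.1 h1).2]
  · have h1 := s₃.le.trans (s₂.le.trans s₁.le)
    have key : ∀ x : α → Fin n → ℝ, (∀ g ∈ S, ∀ c, x g c = 0) →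
        B G x x = ∑ g ∈ Sᶜ, ∑ h ∈ Sᶜ, if G.Adj g h then ∑ c, x g c * x h c else 0 := fun x hx => by
      rw [B, ← sum_subset (subset_univ Sᶜ) fun g _ hg => by
        simp [hx g (not_not.1 (mem_compl.not.1 hg))]]
      refine sum_congr rfl fun g _ => ?_
      rw [← sum_subset (subset_univ Sᶜ) fun h _ hh => by
        simp [hx h (not_not.1 (mem_compl.not.1 hh))]]
    rw [key x₃ fun g hg c => by simp [hχ, hg], key x₀ fun g hg c => by simp [x₀, hg]] at h1
    refine le_trans (le_of_eq ?_) (h1.trans (le_of_eq (Eq.symm ?_)))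
    · refine sum_congr rfl fun g hg => sum_congr rfl fun h hh => ?_
      simp only [hχ, mem_compl.1 hg, mem_compl.1 hh, not_false_eq_true, true_and, ite_and]
      split_ifs with h2 h3
      · simp [h3]
      · simp [h3]
      · rfl
    · rw [sum_div]
      refine sum_congr rfl fun g hg => ?_
      rw [sum_div]
      refine sum_congr rfl fun h hh => ?_
      simp only [x₀, mem_compl.1 hg, mem_compl.1 hh, if_false]
      split_ifs
      · simp; field_simp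
      · simp

lemma Rb_mono (n : ℕ) {a b : ℕ} (h : a ≤ b) : Rb n a ≤ Rb n b :=
  Nat.mul_le_mul_left _ (Nat.pow_le_pow_right (by norm_num) (by omega))

/-- The number of reserved goods. -/
def Sb (n : ℕ) : ℕ := n * (n * (2 * Rb n n) + 1)

theorem main (hn : 0 < n) (v : Fin n → α → ℝ) (hv : ∀ i g, 0 ≤ v i g) :
    ∃ a : α → Fin n, (∀ i j, val (v i) a univ j ≤ val (v i) a univ i ∨
        ∃ g, a g = j ∧ val (v i) a univ j - v i g ≤ val (v i) a univ i) ∧
      (∑ g, ∑ h, if G.Adj g h ∧ a g = a h then (1 : ℝ) else 0) ≤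
        (∑ g, ∑ h, if G.Adj g h then (1 : ℝ) else 0) / n +
          (2 * (Sb n * Rb n (n + Sb n)) + Sb n * Sb n) := by
  have hn0 : (0 : ℝ) < n := by exact_mod_cast hn
  choose L u h1 h2 h3 h4 using fun i => exists_top (v i) (hv i) (n * (2 * Rb n n) + 1)
  set S := univ.biUnion L with hS
  have hLS : ∀ i, L i ⊆ S := fun i => subset_biUnion_of_mem L (mem_univ i)
  have hSc : S.card ≤ Sb n := by
    refine card_biUnion_le.trans ((sum_le_card_nsmul _ _ _ fun i _ => h1 i).trans ?_)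
    simp [Sb]
  obtain ⟨χ₀, k1, k2, k3⟩ := colouring G hn v hv S u h2 fun i g hg => h3 i g fun h => hg (hLS i h)
  obtain ⟨χ, σ, k4, k5⟩ := repair hn v hv χ₀ S (2 * Rb n n) u k1
    (fun i => (h4 i).imp id fun h => ⟨L i, hLS i, h⟩) h2
  have e : ∀ f c, val f (fun g => σ.symm (χ g)) univ c = val f χ univ (σ c) := fun f c => by
    simp only [val, Equiv.symm_apply_eq]
  refine ⟨fun g => σ.symm (χ g), fun i j => ?_, ?_⟩
  · simp only [e, Equiv.symm_apply_eq]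
    exact k5 i (σ j)
  simp only [EmbeddingLike.apply_eq_iff_eq]
  have split : ∀ F : α → α → ℝ, (∀ g h, F g h = F h g) → ∑ g, ∑ h, F g h =
      ∑ g ∈ S, ∑ h ∈ S, F g h + 2 * ∑ g ∈ S, ∑ h ∈ Sᶜ, F g h + ∑ g ∈ Sᶜ, ∑ h ∈ Sᶜ, F g h := by
    intro F hF
    rw [← sum_add_sum_compl S]
    simp only [← sum_add_sum_compl S (f := F _), sum_add_distrib]
    rw [sum_comm (s := Sᶜ) (t := S)]
    have : ∑ y ∈ S, ∑ x ∈ Sᶜ, F x y = ∑ y ∈ S, ∑ x ∈ Sᶜ, F y x :=
      sum_congr rfl fun y _ => sum_congr rfl fun x _ => hF x y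
    rw [this]; ring
  rw [split _ fun g h => by simp only [G.adj_comm g h, eq_comm (a := χ g)],
    split _ fun g h => by simp only [G.adj_comm g h]]
  have hSr : (S.card : ℝ) ≤ Sb n := by exact_mod_cast hSc
  have a1 : (∑ g ∈ S, ∑ h ∈ S, if G.Adj g h ∧ χ g = χ h then (1 : ℝ) else 0) ≤ Sb n * Sb n := by
    calc _ ≤ ∑ g ∈ S, ∑ h ∈ S, (1 : ℝ) :=
          sum_le_sum fun g _ => sum_le_sum fun h _ => by split_ifs <;> norm_num
      _ = S.card * S.card := by simp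
      _ ≤ _ := by gcongr
  have a2 : (∑ g ∈ S, ∑ h ∈ Sᶜ, if G.Adj g h ∧ χ g = χ h then (1 : ℝ) else 0) ≤
      (∑ g ∈ S, ∑ h ∈ Sᶜ, if G.Adj g h then (1 : ℝ) else 0) / n + Sb n * Rb n (n + Sb n) := by
    have hR : (Rb n (n + S.card) : ℝ) ≤ Rb n (n + Sb n) := by
      exact_mod_cast Rb_mono n (by omega)
    calc _ ≤ ∑ g ∈ S, ((∑ h ∈ Sᶜ, if G.Adj g h then (1 : ℝ) else 0) / n + Rb n (n + Sb n)) := by
          refine sum_le_sum fun g hg => le_trans (le_of_eq ?_)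
            ((k2 g hg (χ g)).trans (by linarith))
          exact sum_congr rfl fun h hh => by simp only [k4 h (mem_compl.1 hh), eq_comm (a := χ g)]
      _ = (∑ g ∈ S, ∑ h ∈ Sᶜ, if G.Adj g h then (1 : ℝ) else 0) / n +
            S.card * Rb n (n + Sb n) := by
          rw [sum_add_distrib, sum_div, sum_const, nsmul_eq_mul]
      _ ≤ _ := by gcongr
  have a3 : (∑ g ∈ Sᶜ, ∑ h ∈ Sᶜ, if G.Adj g h ∧ χ g = χ h then (1 : ℝ) else 0) ≤
      (∑ g ∈ Sᶜ, ∑ h ∈ Sᶜ, if G.Adj g h then (1 : ℝ) else 0) / n :=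
    le_trans (le_of_eq (sum_congr rfl fun g hg => sum_congr rfl fun h hh => by
      rw [k4 g (mem_compl.1 hg), k4 h (mem_compl.1 hh)])) k3
  have a4 : 0 ≤ (∑ g ∈ S, ∑ h ∈ S, if G.Adj g h then (1 : ℝ) else 0) / n := by positivity
  rw [add_div, add_div, mul_div_assoc]
  linarith

omit [DecidableEq α] in
lemma twice_edges (H : SimpleGraph α) [DecidableRel H.Adj] :
    (∑ g, ∑ h, if H.Adj g h then (1 : ℝ) else 0) = 2 * (H.edgeSet.ncard : ℝ) := by
  have h1 := H.sum_degrees_eq_twice_card_edges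
  rw [← SimpleGraph.coe_edgeFinset, Set.ncard_coe_finset]
  have h2 : ∀ g, (∑ h, if H.Adj g h then (1 : ℝ) else 0) = H.degree g := fun g => by
    rw [sum_boole, ← H.card_neighborFinset_eq_degree, H.neighborFinset_eq_filter]
  simp only [h2]
  exact_mod_cast h1

end Pool.Agent.P.MP_0aed39_co
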