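import Mathlib

/-!
Rounding fractional colourings without increasing the multilinear count of monochromatic edges.
-/

namespace Pool.Agent.P.MP_0aed39_co

open Finset

variable {α : Type*} [Fintype α] [DecidableEq α] {n : ℕ}

omit [Fintype α] in
lemma ramsey (G : SimpleGraph α) (k : ℕ) : ∀ (a b : ℕ) (s : Finset α), a + b = k →
    2 ^ k ≤ s.card →
    (∃ t ⊆ s, t.card = a ∧ ∀ x ∈ t, ∀ y ∈ t, x ≠ y → G.Adj x y) ∨
      (∃ t ⊆ s, t.card = b ∧ ∀ x ∈ t, ∀ y ∈ t, ¬ G.Adj x y) := by
  classical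
  induction k with
  | zero =>
    intro a b s h _
    exact Or.inl ⟨∅, empty_subset _, by simp; omega, by simp⟩
  | succ k ih =>
    intro a b s h hs
    rcases a with _ | a
    · exact Or.inl ⟨∅, empty_subset _, rfl, by simp⟩
    rcases b with _ | b
    · exact Or.inr ⟨∅, empty_subset _, rfl, by simp⟩
    obtain ⟨v, hv⟩ : s.Nonempty := card_pos.1 (lt_of_lt_of_le (by positivity) hs)
    have h1 := card_filter_add_card_filter_not (s := s.erase v) (fun x => G.Adj v x)
    rw [card_erase_of_mem hv] at h1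
    rw [pow_succ] at hs
    by_cases hc : 2 ^ k ≤ ((s.erase v).filter fun x => G.Adj v x).card
    · rcases ih a (b + 1) _ (by omega) hc with ⟨t, ht, h2, h3⟩ | ⟨t, ht, h2, h3⟩
      · have hvt : v ∉ t := fun h => by simpa using ht h
        refine Or.inl ⟨insert v t, ?_, by rw [card_insert_of_notMem hvt, h2], ?_⟩
        · exact insert_subset hv fun x hx => mem_of_mem_erase (mem_filter.1 (ht hx)).1
        · intro x hx y hy hxy
          rcases mem_insert.1 hx with rfl | hx' <;> rcases mem_insert.1 hy with rfl | hy'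
          · exact absurd rfl hxy
          · exact (mem_filter.1 (ht hy')).2
          · exact (mem_filter.1 (ht hx')).2.symm
          · exact h3 x hx' y hy' hxy
      · exact Or.inr ⟨t, fun x hx => mem_of_mem_erase (mem_filter.1 (ht hx)).1, h2, h3⟩
    · have hc' : 2 ^ k ≤ ((s.erase v).filter fun x => ¬ G.Adj v x).card := by omega
      rcases ih (a + 1) b _ (by omega) hc' with ⟨t, ht, h2, h3⟩ | ⟨t, ht, h2, h3⟩
      · exact Or.inl ⟨t, fun x hx => mem_of_mem_erase (mem_filter.1 (ht hx)).1, h2, h3⟩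
      · have hvt : v ∉ t := fun h => by simpa using ht h
        refine Or.inr ⟨insert v t, ?_, by rw [card_insert_of_notMem hvt, h2], ?_⟩
        · exact insert_subset hv fun x hx => mem_of_mem_erase (mem_filter.1 (ht hx)).1
        · intro x hx y hy
          rcases mem_insert.1 hx with rfl | hx' <;> rcases mem_insert.1 hy with rfl | hy'
          · exact G.irrefl
          · exact (mem_filter.1 (ht hy')).2
          · exact fun h => (mem_filter.1 (ht hx')).2 h.symm
          · exact h3 x hx' y hy'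

/-- A nonzero vector on a large set killed by few linear forms. -/
lemma exists_dir {J : Type*} [Fintype J] (w : J → α → ℝ) (T : Finset α)
    (hT : Fintype.card J + 1 < T.card) : ∃ δ : α → ℝ, (∃ g, δ g ≠ 0) ∧ (∀ g, δ g ≠ 0 → g ∈ T) ∧
      ∑ g, δ g = 0 ∧ ∀ j, ∑ g, w j g * δ g = 0 := by
  classical
  let v : T → (Option J → ℝ) := fun g o => o.elim 1 fun j => w j g
  have h : ¬ LinearIndependent ℝ v := fun h => by
    have := h.fintype_card_le_finrank
    simp at this
    omega
  obtain ⟨f, h1, i, h2⟩ := Fintype.not_linearIndependent_iff.1 h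
  have key : ∀ u : α → ℝ, ∑ g, u g * (if h : g ∈ T then f ⟨g, h⟩ else 0) =
      ∑ g : T, f g * u g := by
    intro u
    rw [← sum_subset (subset_univ T) (fun g _ hg => by simp [hg]), ← sum_coe_sort]
    exact sum_congr rfl fun g _ => by simp [mul_comm]
  refine ⟨fun g => if h : g ∈ T then f ⟨g, h⟩ else 0, ⟨i, by simpa using h2⟩,
    fun g hg => by_contra fun h => hg (dif_neg h), ?_, fun j => ?_⟩
  · have h3 := congrFun h1 none
    have h4 := key fun _ => 1
    simp only [one_mul] at h4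
    rw [h4]
    simpa [v] using h3
  · have h3 := congrFun h1 (some j)
    rw [key]
    simpa [v] using h3

variable (G : SimpleGraph α) [DecidableRel G.Adj]

/-- The bilinear form of the graph on fractional colourings. -/
def B (x y : α → Fin n → ℝ) : ℝ := ∑ g, ∑ h, if G.Adj g h then ∑ c, x g c * y h c else 0

/-- Goods split between at least two colours. -/
noncomputable def Fr (x : α → Fin n → ℝ) : Finset α :=
  univ.filter fun g => ∃ c c', c ≠ c' ∧ 0 < x g c ∧ 0 < x g c'

/-- The positive entries. -/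
noncomputable def Sp (x : α → Fin n → ℝ) : Finset (α × Fin n) :=
  univ.filter fun p => 0 < x p.1 p.2

omit [DecidableEq α] in
lemma B_expand (x d : α → Fin n → ℝ) (t : ℝ) :
    B G (fun g c => x g c + t * d g c) (fun g c => x g c + t * d g c) =
      B G x x + t * (B G x d + B G d x) + t ^ 2 * B G d d := by
  simp only [B, mul_add, mul_sum, ← sum_add_distrib]
  refine sum_congr rfl fun g _ => sum_congr rfl fun h _ => ?_
  split_ifs
  · simp only [mul_sum, ← sum_add_distrib]
    exact sum_congr rfl fun c _ => by ring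
  · simp

omit [DecidableEq α] in
lemma move_aux (x d : α → Fin n → ℝ) (hx : ∀ g c, 0 ≤ x g c)
    (hs : ∀ g c, d g c ≠ 0 → 0 < x g c) (hn : ∃ g c, d g c < 0) (h1 : B G x d + B G d x ≤ 0)
    (h2 : B G d d ≤ 0) : ∃ t : ℝ, (∀ g c, 0 ≤ x g c + t * d g c) ∧
      B G (fun g c => x g c + t * d g c) (fun g c => x g c + t * d g c) ≤ B G x x ∧
      Sp (fun g c => x g c + t * d g c) ⊂ Sp x := by
  classical
  obtain ⟨g₀, c₀, h₀⟩ := hn
  obtain ⟨p, hp, hmin⟩ := exists_min_image (univ.filter fun p : α × Fin n => d p.1 p.2 < 0)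
    (fun p => x p.1 p.2 / (-d p.1 p.2)) ⟨(g₀, c₀), by simpa using h₀⟩
  have hp0 : d p.1 p.2 < 0 := (mem_filter.1 hp).2
  have hxp := hs _ _ hp0.ne
  have ht : 0 < x p.1 p.2 / (-d p.1 p.2) := div_pos hxp (by linarith)
  refine ⟨x p.1 p.2 / (-d p.1 p.2), fun g c => ?_, ?_, ?_⟩
  · rcases lt_or_ge (d g c) 0 with h | h
    · have h3 := hmin (g, c) (by simpa using h)
      rw [le_div_iff₀ (by linarith)] at h3
      simp only at h3
      linarith
    · exact add_nonneg (hx g c) (mul_nonneg ht.le h)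
  · rw [B_expand]
    nlinarith [mul_nonneg ht.le (neg_nonneg.2 h1), mul_nonneg (sq_nonneg (x p.1 p.2 / (-d p.1 p.2)))
      (neg_nonneg.2 h2)]
  · refine ⟨fun q hq => ?_, fun h => ?_⟩
    · have h3 := (mem_filter.1 hq).2
      refine mem_filter.2 ⟨mem_univ _, ?_⟩
      by_cases h4 : d q.1 q.2 = 0
      · simpa [h4] using h3
      · exact hs _ _ h4
    · have h3 := (mem_filter.1 (h (mem_filter.2 ⟨mem_univ p, hxp⟩))).2
      have h4 : x p.1 p.2 + x p.1 p.2 / (-d p.1 p.2) * d p.1 p.2 = 0 := by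
        have := hp0.ne
        field_simp
        ring
      simp only at h3
      linarith

omit [DecidableEq α] in
lemma B_neg_left (x y : α → Fin n → ℝ) : B G (fun g c => -x g c) y = -B G x y := by
  simp only [B, ← sum_neg_distrib]
  refine sum_congr rfl fun g _ => sum_congr rfl fun h _ => ?_
  split_ifs <;> simp

omit [DecidableEq α] in
lemma B_neg_right (x y : α → Fin n → ℝ) : B G x (fun g c => -y g c) = -B G x y := by
  simp only [B, ← sum_neg_distrib]
  refine sum_congr rfl fun g _ => sum_congr rfl fun h _ => ?_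
  split_ifs <;> simp

omit [DecidableEq α] in
lemma move (x d : α → Fin n → ℝ) (hx : ∀ g c, 0 ≤ x g c)
    (hs : ∀ g c, d g c ≠ 0 → 0 < x g c) (hn : ∃ g c, d g c < 0) (hp : ∃ g c, 0 < d g c)
    (h2 : B G d d ≤ 0) : ∃ t : ℝ, (∀ g c, 0 ≤ x g c + t * d g c) ∧
      B G (fun g c => x g c + t * d g c) (fun g c => x g c + t * d g c) ≤ B G x x ∧
      Sp (fun g c => x g c + t * d g c) ⊂ Sp x := by
  rcases le_total (B G x d + B G d x) 0 with h | h
  · exact move_aux G x d hx hs hn h h2
  · obtain ⟨t, h3⟩ := move_aux G x (fun g c => -d g c) hx (fun g c h => hs g c (by simpa using h))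
      (by simpa using hp) (by rw [B_neg_left, B_neg_right]; linarith)
      (by rw [B_neg_left, B_neg_right]; linarith)
    exact ⟨-t, by simpa only [neg_mul, mul_neg] using h3⟩

/-- The conclusion of a rounding step. -/
structure Step {J : Type*} (w : J → α → ℝ) (x y : α → Fin n → ℝ) : Prop where
  nonneg : ∀ g c, 0 ≤ y g c
  row : ∀ g, ∑ c, y g c = ∑ c, x g c
  fix : ∀ g, g ∉ Fr x → y g = x g
  sub : Fr y ⊆ Fr x
  le : B G y y ≤ B G x x
  lin : ∀ j c, ∑ g, w j g * y g c = ∑ g, w j g * x g c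

omit [DecidableEq α] in
lemma iterate {J : Type*} (w : J → α → ℝ) (R : ℕ)
    (H : ∀ x : α → Fin n → ℝ, R < (Fr x).card → ∃ (δ : α → ℝ) (c₁ c₂ : Fin n), c₁ ≠ c₂ ∧
      (∃ g, δ g ≠ 0) ∧ (∀ g, δ g ≠ 0 → 0 < x g c₁ ∧ 0 < x g c₂) ∧
      (∑ g, ∑ h, if G.Adj g h then δ g * δ h else 0) ≤ 0 ∧ ∀ j, ∑ g, w j g * δ g = 0)
    (N : ℕ) : ∀ x : α → Fin n → ℝ, (Sp x).card = N → (∀ g c, 0 ≤ x g c) →
      ∃ y, Step G w x y ∧ (Fr y).card ≤ R := by
  induction N using Nat.strong_induction_on with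
  | _ N ih =>
    intro x hN hx
    rcases le_or_gt (Fr x).card R with h | h
    · exact ⟨x, ⟨hx, fun _ => rfl, fun _ _ => rfl, Subset.rfl, le_rfl, fun _ _ => rfl⟩, h⟩
    obtain ⟨δ, c₁, c₂, hc, ⟨g₀, hg₀⟩, h1, h2, h3⟩ := H x h
    let e : Fin n → ℝ := fun c => (if c = c₁ then 1 else 0) - (if c = c₂ then 1 else 0)
    have e1 : e c₁ = 1 := by simp [e, hc]
    have e2 : e c₂ = -1 := by simp [e, hc.symm]
    have e3 : ∑ c, e c = 0 := by simp [e, sum_sub_distrib]
    have e4 : ∀ c, e c ≠ 0 → c = c₁ ∨ c = c₂ := fun c h => by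
      by_contra hc'
      push Not at hc'
      simp [e, hc'.1, hc'.2] at h
    obtain ⟨t, t1, t2, t3⟩ := move G x (fun g c => δ g * e c) hx (fun g c h => by
        obtain ⟨h4, h5⟩ := mul_ne_zero_iff.1 h
        rcases e4 c h5 with rfl | rfl
        exacts [(h1 g h4).1, (h1 g h4).2])
      (by
        rcases lt_or_gt_of_ne hg₀ with h | h
        · exact ⟨g₀, c₁, by simpa [e1] using h⟩
        · exact ⟨g₀, c₂, by simpa [e2] using h⟩)
      (by
        rcases lt_or_gt_of_ne hg₀ with h | h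
        · exact ⟨g₀, c₂, by simpa [e2] using h⟩
        · exact ⟨g₀, c₁, by simpa [e1] using h⟩)
      (by
        have : B G (fun g c => δ g * e c) (fun g c => δ g * e c) =
            (∑ g, ∑ h, if G.Adj g h then δ g * δ h else 0) * ∑ c, e c * e c := by
          simp only [B, sum_mul]
          refine sum_congr rfl fun g _ => sum_congr rfl fun h _ => ?_
          split_ifs
          · rw [mul_sum]; exact sum_congr rfl fun c _ => by ring
          · simp
        rw [this]
        exact mul_nonpos_of_nonpos_of_nonneg h2 (sum_nonneg fun c _ => mul_self_nonneg _))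
    obtain ⟨y, hy, hR⟩ := ih _ (hN ▸ card_lt_card t3) _ rfl t1
    have hsub : Fr (fun g c => x g c + t * (δ g * e c)) ⊆ Fr x := fun g hg => by
      obtain ⟨c, c', h4, h5, h6⟩ := (mem_filter.1 hg).2
      exact mem_filter.2 ⟨mem_univ _, c, c', h4,
        (mem_filter.1 (t3.1 (mem_filter.2 ⟨mem_univ (g, c), h5⟩))).2,
        (mem_filter.1 (t3.1 (mem_filter.2 ⟨mem_univ (g, c'), h6⟩))).2⟩
    refine ⟨y, ⟨hy.nonneg, fun g => ?_, fun g hg => ?_, hy.sub.trans hsub, hy.le.trans t2,
      fun j c => ?_⟩, hR⟩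
    · rw [hy.row, sum_add_distrib, ← mul_sum, ← mul_sum, e3]; simp
    · rw [hy.fix g fun h => hg (hsub h)]
      have : δ g = 0 := by_contra fun h =>
        hg (mem_filter.2 ⟨mem_univ _, c₁, c₂, hc, (h1 g h).1, (h1 g h).2⟩)
      simp [this]
    · rw [hy.lin]
      have : ∑ g, w j g * (t * (δ g * e c)) = t * e c * ∑ g, w j g * δ g := by
        rw [mul_sum]; exact sum_congr rfl fun g _ => by ring
      simp only [mul_add, sum_add_distrib, this, h3, mul_zero, add_zero]

/-- The number of goods left fractional. -/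
def Rb (n k : ℕ) : ℕ := n * n * 2 ^ (k + 2 + (k + 2))

lemma round {J : Type*} [Fintype J] (w : J → α → ℝ) (x : α → Fin n → ℝ) (hx : ∀ g c, 0 ≤ x g c) :
    ∃ y, Step G w x y ∧ (Fr y).card ≤ Rb n (Fintype.card J) := by
  classical
  refine iterate G w _ (fun x h => ?_) _ x rfl hx
  have hch : ∀ g : Fr x, ∃ p : Fin n × Fin n, p.1 ≠ p.2 ∧ 0 < x g p.1 ∧ 0 < x g p.2 := fun g => by
    obtain ⟨c, c', h⟩ := (mem_filter.1 g.2).2
    exact ⟨(c, c'), h⟩
  choose f hf using hch
  obtain ⟨p, -, hp⟩ := exists_lt_card_fiber_of_mul_lt_card_of_maps_to (s := (univ : Finset (Fr x)))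
    (t := (univ : Finset (Fin n × Fin n))) (f := f) (fun _ _ => mem_univ _)
    (n := 2 ^ (Fintype.card J + 2 + (Fintype.card J + 2))) (by simpa [Rb] using h)
  let s : Finset α := (univ.filter fun g : Fr x => f g = p).map (Function.Embedding.subtype _)
  have hs : ∀ g ∈ s, p.1 ≠ p.2 ∧ 0 < x g p.1 ∧ 0 < x g p.2 := fun g hg => by
    obtain ⟨g', h1, rfl⟩ := mem_map.1 hg
    have := hf g'
    rwa [(mem_filter.1 h1).2] at this
  have hsc : 2 ^ (Fintype.card J + 2 + (Fintype.card J + 2)) ≤ s.card := by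
    rw [card_map]; exact hp.le
  rcases ramsey G _ _ _ s rfl hsc with ⟨t, ht, h2, h3⟩ | ⟨t, ht, h2, h3⟩
  · obtain ⟨δ, ⟨g₀, d1⟩, d2, d3, d4⟩ := exists_dir w t (by omega)
    refine ⟨δ, p.1, p.2, (hs _ (ht (d2 _ d1))).1, ⟨g₀, d1⟩, fun g hg => (hs _ (ht (d2 _ hg))).2,
      ?_, d4⟩
    calc _ ≤ ∑ g, ∑ h, δ g * δ h := by
          refine sum_le_sum fun g _ => sum_le_sum fun h _ => ?_
          split_ifs with ha
          · exact le_rfl
          · by_cases hg : δ g = 0
            · simp [hg]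
            by_cases hh : δ h = 0
            · simp [hh]
            have : g = h := by_contra fun hne => ha (h3 g (d2 _ hg) h (d2 _ hh) hne)
            rw [this]; exact mul_self_nonneg _
      _ = 0 := by rw [← sum_mul_sum, d3, mul_zero]
  · obtain ⟨δ, ⟨g₀, d1⟩, d2, -, d4⟩ := exists_dir w t (by omega)
    refine ⟨δ, p.1, p.2, (hs _ (ht (d2 _ d1))).1, ⟨g₀, d1⟩, fun g hg => (hs _ (ht (d2 _ hg))).2,
      le_of_eq ?_, d4⟩
    refine sum_eq_zero fun g _ => sum_eq_zero fun h _ => ?_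
    split_ifs with ha
    · by_contra hne
      obtain ⟨hg, hh⟩ := mul_ne_zero_iff.1 hne
      exact h3 g (d2 _ hg) h (d2 _ hh) ha
    · rfl

lemma round_all (x : α → Fin n → ℝ) (hx : ∀ g c, 0 ≤ x g c) :
    ∃ y, Step G (fun (_ : Empty) _ => (0 : ℝ)) x y ∧ Fr y = ∅ := by
  obtain ⟨y, h1, h2⟩ := iterate G (fun (_ : Empty) _ => (0 : ℝ)) 0 (fun x h => by
    obtain ⟨g, hg⟩ := card_pos.1 h
    obtain ⟨c, c', h1, h2⟩ := (mem_filter.1 hg).2
    refine ⟨fun h => if h = g then 1 else 0, c, c', h1, ⟨g, by simp⟩, fun h hh => ?_,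
      le_of_eq ?_, fun j => j.elim⟩
    · have : h = g := by_contra fun hne => hh (if_neg hne)
      rw [this]; exact h2
    · refine sum_eq_zero fun a _ => sum_eq_zero fun b _ => ?_
      by_cases h4 : a = g
      · by_cases h5 : b = g
        · simp [h4, h5]
        · simp [h5]
      · simp [h4]) _ x rfl hx
  exact ⟨y, h1, card_eq_zero.1 (Nat.le_zero.1 h2)⟩

omit [DecidableEq α] in
/-- Two colourings that differ only on few goods have close linear forms. -/
lemma close {x y : α → Fin n → ℝ} (hx : ∀ g c, 0 ≤ x g c) (hy : ∀ g c, 0 ≤ y g c)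
    (hx1 : ∀ g, ∑ c, x g c ≤ 1) (hy1 : ∀ g, ∑ c, y g c ≤ 1) (F : Finset α)
    (hF : ∀ g, g ∉ F → y g = x g) (w : α → ℝ) {u : ℝ} (hw : ∀ g ∈ F, |w g| ≤ u) (c : Fin n) :
    |∑ g, w g * y g c - ∑ g, w g * x g c| ≤ F.card * u := by
  rw [← sum_sub_distrib, ← sum_subset (subset_univ F) (fun g _ hg => by rw [hF g hg, sub_self])]
  refine (abs_sum_le_sum_abs _ _).trans ((sum_le_card_nsmul _ _ u fun g hg => ?_).trans
    (by rw [nsmul_eq_mul]))
  have h1 : x g c ≤ 1 := (single_le_sum (fun c _ => hx g c) (mem_univ c)).trans (hx1 g)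
  have h2 : y g c ≤ 1 := (single_le_sum (fun c _ => hy g c) (mem_univ c)).trans (hy1 g)
  have h3 : |y g c - x g c| ≤ 1 := by
    rw [abs_le]; constructor <;> linarith [hx g c, hy g c]
  rw [← mul_sub, abs_mul]
  calc |w g| * |y g c - x g c| ≤ u * 1 :=
        mul_le_mul (hw g hg) h3 (abs_nonneg _) ((abs_nonneg _).trans (hw g hg))
    _ = u := mul_one u

end Pool.Agent.P.MP_0aed39_co
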