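import Pool.Agent.P.MP_0aed39_co.Exact

/-!
Removing `n` twins, and the reduction to instances of bounded size.
-/

namespace Pool.Agent.P.MP_0aed39_co

open Finset

lemma acyclic {n : ℕ} (V : Fin n → Fin n → ℝ) : ∃ τ : Equiv.Perm (Fin n),
    (∀ i, V i i ≤ V i (τ i)) ∧
      ∀ R : Finset (Fin n), R.Nonempty → ∃ c ∈ R, ∀ i ∈ R, V i (τ c) ≤ V i (τ i) := by
  classical
  obtain ⟨τ, hτ, hmax⟩ := exists_max_image
    ((univ : Finset (Equiv.Perm (Fin n))).filter fun τ => ∀ i, V i i ≤ V i (τ i))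
    (fun τ => ∑ i, V i (τ i)) ⟨1, by simp⟩
  have h0 := (mem_filter.1 hτ).2
  refine ⟨τ, h0, fun R ⟨r, hr⟩ => by_contra fun h => ?_⟩
  push Not at h
  have : Nonempty (Fin n) := ⟨r⟩
  choose! f hf1 hf2 using h
  obtain ⟨P, π, ⟨a₀, ha₀⟩, h1, h2⟩ := exists_cycle fun a => if a ∈ R then f a else r
  have hPR : ∀ a ∈ P, a ∈ R := fun a ha => by
    obtain ⟨b, rfl⟩ := π.surjective a
    by_cases hb : b ∈ P
    · rw [h1 b hb]
      split_ifs with h3
      exacts [hf1 b h3, hr]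
    · rw [h2 b hb] at ha; exact absurd ha hb
  have h5 : ∀ a ∈ P, V (π a) (τ (π a)) < V (π a) (τ a) := fun a ha => by
    rw [h1 a ha, if_pos (hPR a ha)]; exact hf2 a (hPR a ha)
  have h3 : ∀ a, V (π a) (τ (π a)) ≤ V (π a) (τ a) := fun a => by
    by_cases ha : a ∈ P
    · exact (h5 a ha).le
    · rw [h2 a ha]
  have h4 := hmax (π.symm.trans τ) (mem_filter.2 ⟨mem_univ _, fun i => by
    obtain ⟨a, rfl⟩ := π.surjective i
    simpa using (h0 _).trans (h3 a)⟩)
  rw [← Equiv.sum_comp π, ← Equiv.sum_comp π (fun i => V i (τ i))] at h4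
  simp only [Equiv.trans_apply, Equiv.symm_apply_apply] at h4
  exact absurd h4 (not_le.2 (sum_lt_sum (fun a _ => h3 a) ⟨a₀, mem_univ _, h5 a₀ ha₀⟩))

/-- One picking round in an order compatible with the envy relation. -/
lemma pick {α : Type} [DecidableEq α] {n : ℕ} (hn : 0 < n) (v : Fin n → α → ℝ)
    (W : Fin n → Fin n → ℝ)
    (hW : ∀ R : Finset (Fin n), R.Nonempty → ∃ c ∈ R, ∀ i ∈ R, W i c ≤ W i i) (k : ℕ) :
    ∀ (R : Finset (Fin n)) (T : Finset α), R.card = k → T.card = k → ∃ ρ : α → Fin n,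
      (∀ g ∈ T, ρ g ∈ R) ∧ (∀ g ∈ T, ∀ h ∈ T, ρ g = ρ h → g = h) ∧
      ∀ g ∈ T, ∀ h ∈ T, W (ρ g) (ρ h) ≤ W (ρ g) (ρ g) ∨ v (ρ g) h ≤ v (ρ g) g := by
  induction k with
  | zero =>
    intro R T _ hT
    rw [card_eq_zero.1 hT]
    exact ⟨fun _ => ⟨0, hn⟩, by simp, by simp, by simp⟩
  | succ k ih =>
    intro R T hR hT
    obtain ⟨c, hc, h1⟩ := hW R (card_pos.1 (by omega))
    obtain ⟨g₀, hg₀, h2⟩ := exists_max_image T (v c) (card_pos.1 (by omega))
    obtain ⟨ρ, r1, r2, r3⟩ := ih (R.erase c) (T.erase g₀) (by rw [card_erase_of_mem hc]; omega)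
      (by rw [card_erase_of_mem hg₀]; omega)
    have e1 : ∀ g, g ≠ g₀ → Function.update ρ g₀ c g = ρ g := fun g hg =>
      Function.update_of_ne hg _ _
    have e0 : Function.update ρ g₀ c g₀ = c := Function.update_self _ _ _
    have r0 : ∀ g ∈ T, g ≠ g₀ → ρ g ≠ c ∧ ρ g ∈ R := fun g hg h =>
      mem_erase.1 (r1 g (mem_erase.2 ⟨h, hg⟩))
    refine ⟨Function.update ρ g₀ c, fun g hg => ?_, fun g hg h hh hgh => ?_, fun g hg h hh => ?_⟩
    · by_cases a : g = g₀
      · rw [a, e0]; exact hc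
      · rw [e1 g a]; exact (r0 g hg a).2
    · by_cases a : g = g₀ <;> by_cases b : h = g₀
      · rw [a, b]
      · rw [a, e0, e1 h b] at hgh; exact absurd hgh.symm (r0 h hh b).1
      · rw [b, e0, e1 g a] at hgh; exact absurd hgh (r0 g hg a).1
      · rw [e1 g a, e1 h b] at hgh
        exact r2 g (mem_erase.2 ⟨a, hg⟩) h (mem_erase.2 ⟨b, hh⟩) hgh
    · by_cases a : g = g₀
      · rw [a, e0]; exact Or.inr (h2 h hh)
      by_cases b : h = g₀
      · rw [b, e0, e1 g a]; exact Or.inl (h1 _ (r0 g hg a).2)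
      · rw [e1 g a, e1 h b]
        exact r3 g (mem_erase.2 ⟨a, hg⟩) h (mem_erase.2 ⟨b, hh⟩)

/-- The goods in `U` have an allocation as in the question. -/
def GoodOn {α : Type} {n : ℕ} (G : SimpleGraph α) [DecidableRel G.Adj] (v : Fin n → α → ℝ)
    (U : Finset α) : Prop :=
  ∃ a : α → Fin n, (∀ i j, val (v i) a U j ≤ val (v i) a U i ∨
      ∃ g ∈ U, a g = j ∧ val (v i) a U j - v i g ≤ val (v i) a U i) ∧
    (∑ g ∈ U, ∑ h ∈ U, if G.Adj g h ∧ a g = a h then (1 : ℝ) else 0) ≤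
      (∑ g ∈ U, ∑ h ∈ U, if G.Adj g h then (1 : ℝ) else 0) / n

lemma GoodOn.map {α β : Type} [Fintype β] {n : ℕ} (hn : 0 < n) (G : SimpleGraph α)
    [DecidableRel G.Adj] (v : Fin n → α → ℝ) (e : β ↪ α) [DecidableRel (G.comap e).Adj]
    (h : GoodOn (G.comap e) (fun i b => v i (e b)) univ) : GoodOn G v (univ.map e) := by
  obtain ⟨a, h1, h2⟩ := h
  have ha : ∀ b, Function.extend e a (fun _ => ⟨0, hn⟩) (e b) = a b := fun b =>
    e.injective.extend_apply _ _ b
  have hv : ∀ i j, val (v i) (Function.extend e a fun _ => ⟨0, hn⟩) (univ.map e) j =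
      val (fun b => v i (e b)) a univ j := fun i j => by
    simp only [val, sum_map, ha]
  refine ⟨Function.extend e a fun _ => ⟨0, hn⟩, fun i j => ?_, ?_⟩
  · simp only [hv]
    rcases h1 i j with h | ⟨b, -, h3, h4⟩
    · exact Or.inl h
    · exact Or.inr ⟨e b, mem_map_of_mem _ (mem_univ b), by rw [ha, h3], h4⟩
  · simp only [sum_map, ha]
    simp only [SimpleGraph.comap_adj] at h2
    convert h2

lemma GoodOn.twins {α : Type} [DecidableEq α] {n : ℕ} (hn : 0 < n) (G : SimpleGraph α)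
    [DecidableRel G.Adj] (v : Fin n → α → ℝ) (hv : ∀ i g, 0 ≤ v i g) {U T : Finset α}
    (hd : Disjoint U T) (hT : T.card = n)
    (htw : ∀ z ∈ U, ∀ x ∈ T, ∀ y ∈ T, G.Adj z x → G.Adj z y) (h : GoodOn G v U) :
    GoodOn G v (U ∪ T) := by
  have hn0 : (0 : ℝ) < n := by exact_mod_cast hn
  obtain ⟨a, h1, h2⟩ := h
  obtain ⟨τ, t1, t2⟩ := acyclic fun i c => val (v i) a U c
  obtain ⟨ρ, -, r2, r3⟩ := pick hn v (fun i c => val (v i) a U (τ c)) t2 n univ T (by simp) hT
  have hsurj : ∀ j, ∃ g ∈ T, ρ g = j := fun j => by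
    have : T.image ρ = univ := eq_univ_of_card _ (by
      rw [card_image_of_injOn (fun g hg h hh => r2 g hg h hh), hT, Fintype.card_fin])
    exact mem_image.1 (this ▸ mem_univ j)
  choose γ γ1 γ2 using hsurj
  let b : α → Fin n := fun g => if g ∈ T then ρ g else τ.symm (a g)
  have bT : ∀ g ∈ T, b g = ρ g := fun g hg => if_pos hg
  have bU : ∀ g ∈ U, b g = τ.symm (a g) := fun g hg => if_neg (disjoint_left.1 hd hg)
  have one : ∀ (f : α → ℝ) j, (∑ g ∈ T, if b g = j then f g else 0) = f (γ j) := fun f j => by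
    rw [sum_eq_single (γ j)]
    · rw [if_pos (by rw [bT _ (γ1 j), γ2])]
    · intro g hg hne
      rw [if_neg]
      rw [bT g hg]
      exact fun h => hne (r2 g hg _ (γ1 j) (h.trans (γ2 j).symm))
    · exact fun h => absurd (γ1 j) h
  have hb : ∀ i j, val (v i) b (U ∪ T) j = val (v i) a U (τ j) + v i (γ j) := fun i j => by
    rw [val, sum_union hd, one]
    congr 1
    exact sum_congr rfl fun g hg => by simp only [bU g hg, Equiv.symm_apply_eq]
  refine ⟨b, fun i j => ?_, ?_⟩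
  · simp only [hb]
    have r4 := r3 _ (γ1 i) _ (γ1 j)
    simp only [γ2] at r4
    rcases r4 with h | h
    · exact Or.inr ⟨γ j, mem_union_right _ (γ1 j), by rw [bT _ (γ1 j), γ2],
        by linarith [hv i (γ i)]⟩
    · rcases h1 i (τ j) with h3 | ⟨g, hg, h3, h4⟩
      · exact Or.inl (by linarith [t1 i])
      · exact Or.inr ⟨g, mem_union_left _ hg, by rw [bU g hg, h3, Equiv.symm_apply_apply],
          by linarith [t1 i]⟩
  · have split : ∀ F : α → α → ℝ, (∀ g h, F g h = F h g) → ∑ g ∈ U ∪ T, ∑ h ∈ U ∪ T, F g h =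
        ∑ g ∈ U, ∑ h ∈ U, F g h + 2 * ∑ g ∈ U, ∑ h ∈ T, F g h + ∑ g ∈ T, ∑ h ∈ T, F g h := by
      intro F hF
      simp only [sum_union hd, sum_add_distrib]
      rw [sum_comm (s := T) (t := U)]
      have : ∑ y ∈ U, ∑ x ∈ T, F x y = ∑ y ∈ U, ∑ x ∈ T, F y x :=
        sum_congr rfl fun y _ => sum_congr rfl fun x _ => hF x y
      rw [this]; ring
    rw [split _ fun g h => by simp only [G.adj_comm g h, eq_comm (a := b g)],
      split _ fun g h => by simp only [G.adj_comm g h]]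
    have a1 : (∑ g ∈ U, ∑ h ∈ U, if G.Adj g h ∧ b g = b h then (1 : ℝ) else 0) =
        ∑ g ∈ U, ∑ h ∈ U, if G.Adj g h ∧ a g = a h then (1 : ℝ) else 0 :=
      sum_congr rfl fun g hg => sum_congr rfl fun h hh => by
        simp only [bU g hg, bU h hh, EmbeddingLike.apply_eq_iff_eq]
    have a2 : (∑ g ∈ U, ∑ h ∈ T, if G.Adj g h ∧ b g = b h then (1 : ℝ) else 0) =
        (∑ g ∈ U, ∑ h ∈ T, if G.Adj g h then (1 : ℝ) else 0) / n := by
      rw [sum_div]
      refine sum_congr rfl fun z hz => ?_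
      have c1 := one (fun h => if G.Adj z h then (1 : ℝ) else 0) (b z)
      have c2 : (∑ h ∈ T, if G.Adj z h then (1 : ℝ) else 0) =
          ∑ h ∈ T, if G.Adj z (γ (b z)) then (1 : ℝ) else 0 :=
        sum_congr rfl fun h hh => by
          simp only [show G.Adj z h ↔ G.Adj z (γ (b z)) from
            ⟨htw z hz h hh _ (γ1 _), htw z hz _ (γ1 _) h hh⟩]
      rw [c2, sum_const, hT, nsmul_eq_mul, mul_div_cancel_left₀ _ hn0.ne', ← c1]
      refine sum_congr rfl fun h _ => ?_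
      by_cases c3 : b h = b z
      · simp [c3]
      · simp [c3, Ne.symm c3]
    have a3 : (∑ g ∈ T, ∑ h ∈ T, if G.Adj g h ∧ b g = b h then (1 : ℝ) else 0) = 0 :=
      sum_eq_zero fun g hg => sum_eq_zero fun h hh => if_neg fun c => by
        rw [bT g hg, bT h hh] at c
        exact c.1.ne (r2 g hg h hh c.2)
    have a4 : 0 ≤ (∑ g ∈ T, ∑ h ∈ T, if G.Adj g h then (1 : ℝ) else 0) / n := by positivity
    rw [a1, a2, a3, add_div, add_div, mul_div_assoc]
    linarith

theorem finite_core (n : ℕ) (hn : 0 < n) : ∃ M : ℕ, ∀ (α : Type) [DecidableEq α]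
    (G : SimpleGraph α) [DecidableRel G.Adj] (v : Fin n → α → ℝ), (∀ i g, 0 ≤ v i g) →
    (∀ U : Finset α, U.card ≤ M → GoodOn G v U) → ∀ U : Finset α, GoodOn G v U := by
  classical
  rcases (by omega : n = 1 ∨ 2 ≤ n) with rfl | hn2
  · refine ⟨0, fun α _ G _ v _ _ U => ⟨fun _ => 0, fun i j => Or.inl ?_, by simp⟩⟩
    rw [Subsingleton.elim i j]
  obtain ⟨D, hD⟩ := main_apart n hn2 0
  refine ⟨2 ^ (n + D), fun α _ G _ v hv hs U => ?_⟩
  induction hk : U.card using Nat.strong_induction_on generalizing U with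
  | _ k ih =>
    rcases le_total U.card (2 ^ (n + D)) with h | h
    · exact hs U h
    let H : SimpleGraph α :=
      { Adj := fun x y => x ≠ y ∧ ∀ z ∈ U, z ≠ x → z ≠ y → (G.Adj z x ↔ G.Adj z y)
        symm := ⟨fun x y hh => ⟨hh.1.symm, fun z hz h1 h2 => (hh.2 z hz h2 h1).symm⟩⟩
        loopless := ⟨fun x hh => hh.1 rfl⟩ }
    rcases ramsey H _ n D U rfl h with ⟨T, hT, h2, h3⟩ | ⟨T, hT, h2, h3⟩
    · have h4 : (U \ T).card < k := by
        have := card_sdiff_add_card_eq_card hT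
        omega
      have h5 := GoodOn.twins hn G v hv sdiff_disjoint h2 (fun z hz x hx y hy hxz => by
        by_cases hxy : x = y
        · exact hxy ▸ hxz
        obtain ⟨h6, h7⟩ := mem_sdiff.1 hz
        exact ((h3 x hx y hy hxy).2 z h6 (fun h => h7 (h ▸ hx)) (fun h => h7 (h ▸ hy))).1 hxz)
        (ih _ h4 _ rfl)
      rwa [sdiff_union_of_subset hT] at h5
    · let e : U ↪ α := Function.Embedding.subtype _
      obtain ⟨a, h4, h5⟩ := hD U (G.comap e) (fun i b => v i (e b)) (fun i b => hv i _)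
        (T.subtype (· ∈ U)) (fun x hx y hy hxy => by
          have h6 := h3 x (mem_subtype.1 hx) y (mem_subtype.1 hy)
          have h7 : (x : α) ≠ y := fun h => hxy (Subtype.ext h)
          simp only [H, not_and, not_forall] at h6
          obtain ⟨z, hz, h8, h9, h10⟩ := h6 h7
          exact ⟨⟨z, hz⟩, fun h => h8 (congrArg Subtype.val h),
            fun h => h9 (congrArg Subtype.val h), h10⟩)
        (by rw [card_subtype, filter_true_of_mem fun x hx => hT hx, h2])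
      have h6 := GoodOn.map hn G v e ⟨a, fun i j => (h4 i j).imp id
        fun ⟨g, h⟩ => ⟨g, mem_univ g, h⟩, by simpa using h5⟩
      have h7 : univ.map e = U := by
        ext x; simp [e]
      rwa [h7] at h6

end Pool.Agent.P.MP_0aed39_co
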